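import Mathlib

namespace Pool.Agent.Results.MP_842b9f_an.NotAlmostVariational

open Filter Topology MeasureTheory Set

/-- `ε` (with `ε i` the digit of index `i+1`) is a `β`-expansion of `x` with digits in
`{0,…,⌈β⌉-1}`. -/
def IsExpansion (β x : ℝ) (ε : ℕ → ℕ) : Prop :=
  (∀ i, ε i < ⌈β⌉₊) ∧ HasSum (fun i => (ε i : ℝ) / β ^ (i + 1)) x

/-- the digit `j` has frequency `p` in `ε`. -/
def HasFreq (ε : ℕ → ℕ) (j : ℕ) (p : ℝ) : Prop :=
  Tendsto (fun n : ℕ => (((Finset.range n).filter (fun i => ε i = j)).card : ℝ) / n)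
    atTop (𝓝 p)

/-- the interval `I_β = [0,(m-1)/(β-1)]`, `m = ⌈β⌉`. -/
def I (β : ℝ) : Set ℝ := Icc 0 (((⌈β⌉₊ : ℝ) - 1) / (β - 1))

/-- `β` is an almost variational frequency base. -/
def IsAlmostVariational (β : ℝ) : Prop :=
  ∃ c : ℝ, 0 < c ∧ ∀ p : Fin ⌈β⌉₊ → ℝ,
    (∀ j, p j ∈ Icc (1 / (⌈β⌉₊ : ℝ) - c) (1 / (⌈β⌉₊ : ℝ) + c)) → ∑ j, p j = 1 →
    ∀ᵐ x ∂(volume.restrict (I β)), ∃ ε : ℕ → ℕ, IsExpansion β x ε ∧
      ∀ j : Fin ⌈β⌉₊, HasFreq ε j (p j)

/-! ### The base -/

/-- the base `2 + 2√2` -/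
noncomputable def b : ℝ := 2 + 2 * √2

lemma b_sq : b * b = 4 * b + 4 := by
  unfold b; nlinarith [Real.mul_self_sqrt (show (0 : ℝ) ≤ 2 by norm_num)]

lemma b_lo : 4.8284 < b := by
  have : (1.4142 : ℝ) < √2 := by
    apply Real.lt_sqrt_of_sq_lt; norm_num
  unfold b; linarith

lemma b_hi : b < 4.8285 := by
  have : √2 < 1.41425 := by
    rw [Real.sqrt_lt' (by norm_num)]; norm_num
  unfold b; linarith

lemma b_pos : 0 < b := by linarith [b_lo]

lemma ceil_b : ⌈b⌉₊ = 5 := by
  rw [Nat.ceil_eq_iff (by norm_num)]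
  constructor
  · norm_num; linarith [b_lo]
  · norm_num; linarith [b_hi]

/-! ### The automaton -/

/-- states: `A` last digit `1`; `B` last two digits `10`; `M` last digit `4`; `Z` otherwise -/
inductive St | A | B | Z | M
  deriving DecidableEq

/-- transition -/
def dl (s : St) (a : ℕ) : St :=
  if a = 1 then .A else if a = 4 then .M else if a = 0 ∧ s = .A then .B else .Z

/-- indicator of the interior digits `1,2,3` -/
def it (a : ℕ) : ℤ := if 1 ≤ a ∧ a ≤ 3 then 1 else 0

/-- weight -/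
def w (s : St) (a : ℕ) : ℤ := it a - (if s = .B ∧ a ≤ 1 then 1 else 0)

/-- length of the interval attached to a state -/
noncomputable def ell (s : St) : ℝ := if s = .M then b - 4 else 1

/-- greedy digit -/
noncomputable def dg (r : ℝ) : ℕ := ⌊b * r⌋₊

/-- greedy map -/
noncomputable def tr (r : ℝ) : ℝ := b * r - dg r

/-- additive functional -/
noncomputable def Fs : ℕ → St → ℝ → ℤ
  | 0, _, _ => 0
  | N + 1, s, r => w s (dg r) + Fs N (dl s (dg r)) (tr r)

lemma ell_le (s : St) : ell s ≤ 1 := by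
  unfold ell; split_ifs <;> linarith [b_hi]

lemma range_step {s : St} {r : ℝ} (h0 : 0 ≤ r) (h1 : r < ell s) :
    dg r ≤ 4 ∧ (s = .M → dg r ≤ 3) ∧ 0 ≤ tr r ∧ tr r < 1 ∧ tr r < ell (dl s (dg r)) := by
  have hbr : 0 ≤ b * r := mul_nonneg b_pos.le h0
  have hfl : (dg r : ℝ) ≤ b * r := Nat.floor_le hbr
  have hlt : b * r < dg r + 1 := Nat.lt_floor_add_one _
  have hr1 : r < 1 := lt_of_lt_of_le h1 (ell_le s)
  have hb1 : b * r < b := by nlinarith [b_pos]
  have hd4 : dg r ≤ 4 := by
    have : (dg r : ℝ) < 5 := by linarith [b_hi]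
    have : dg r < 5 := by exact_mod_cast this
    omega
  have htr1 : tr r < 1 := by unfold tr; linarith
  refine ⟨hd4, ?_, ?_, htr1, ?_⟩
  · intro hs
    subst hs
    have h2 : r < b - 4 := by simpa [ell] using h1
    have h3 : b * r < 4 := by nlinarith [b_pos, b_sq]
    have : (dg r : ℝ) < 4 := by linarith
    have : dg r < 4 := by exact_mod_cast this
    omega
  · unfold tr; linarith
  · by_cases h4 : dg r = 4
    · have : dl s (dg r) = .M := by rw [h4]; simp [dl]
      rw [this]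
      simp only [ell, if_true]
      unfold tr; rw [h4]; push_cast; linarith
    · have : dl s (dg r) ≠ .M := by
        unfold dl; split_ifs <;> simp
      unfold ell; rw [if_neg this]; exact htr1

/-! ### Counting -/

/-- number of admissible digits -/
def adm (s : St) : ℕ := if s = .M then 4 else 5

/-- approximate eigenvector -/
noncomputable def phi : St → ℝ
  | .A => 1222 / 1000
  | .B => 1248 / 1000
  | .Z => 1215 / 1000
  | .M => 1

lemma phi_ge (s : St) : 1 ≤ phi s := by cases s <;> norm_num [phi]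

lemma eigen (s : St) :
    ∑ a ∈ Finset.range (adm s), phi (dl s a) * (50 / 47 : ℝ) ^ (-(w s a)) ≤
      4649 / 1000 * phi s := by
  cases s <;> simp [adm, Finset.sum_range_succ, dl, w, it, phi] <;> norm_num

/-- the bad sets -/
def Bad (N : ℕ) (s : St) (t : ℤ) : Set ℝ := {r : ℝ | 0 ≤ r ∧ r < ell s ∧ Fs N s r ≤ t}

lemma vol_pre (a : ℝ) (S : Set ℝ) :
    volume {r : ℝ | b * r - a ∈ S} = ENNReal.ofReal b⁻¹ * volume S := by
  have h1 : {r : ℝ | b * r - a ∈ S} = (fun r => b * r) ⁻¹' ((fun x => x + (-a)) ⁻¹' S) := by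
    ext r; simp [sub_eq_add_neg]
  rw [h1, Real.volume_preimage_mul_left b_pos.ne', measure_preimage_add_right,
    abs_of_pos (inv_pos.mpr b_pos)]

lemma bad_bound (N : ℕ) : ∀ (s : St) (t : ℤ), volume (Bad N s t) ≤
    ENNReal.ofReal ((4649 / 1000 / b) ^ N * phi s * (50 / 47 : ℝ) ^ t) := by
  induction N with
  | zero =>
    intro s t
    by_cases ht : 0 ≤ t
    · calc volume (Bad 0 s t) ≤ volume (Ico (0 : ℝ) 1) := by
            apply measure_mono
            intro r hr
            exact ⟨hr.1, lt_of_lt_of_le hr.2.1 (ell_le s)⟩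
        _ = ENNReal.ofReal 1 := by rw [Real.volume_Ico]; norm_num
        _ ≤ _ := by
            apply ENNReal.ofReal_le_ofReal
            have h1 : (1 : ℝ) ≤ (50 / 47 : ℝ) ^ t := one_le_zpow₀ (by norm_num) ht
            have h2 := phi_ge s
            rw [pow_zero, one_mul]
            nlinarith
    · have : Bad 0 s t = ∅ := by
        ext r
        simp only [Bad, Fs, mem_ofPred_eq, mem_empty_iff_false, iff_false, not_and]
        intro _ _; exact ht
      rw [this]; simp
  | succ N ih =>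
    intro s t
    have hsub : Bad (N + 1) s t ⊆ ⋃ a ∈ Finset.range (adm s),
        {r : ℝ | b * r - (a : ℕ) ∈ Bad N (dl s a) (t - w s a)} := by
      intro r hr
      obtain ⟨h0, h1, h2⟩ := hr
      obtain ⟨g1, g2, g3, _, g4⟩ := range_step h0 h1
      simp only [mem_iUnion]
      refine ⟨dg r, ?_, ?_⟩
      · rw [Finset.mem_range]; unfold adm
        split_ifs with hs
        · have := g2 hs; omega
        · omega
      · refine ⟨g3, g4, ?_⟩
        have h3 : w s (dg r) + Fs N (dl s (dg r)) (tr r) ≤ t := h2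
        show Fs N (dl s (dg r)) (tr r) ≤ t - w s (dg r)
        linarith
    have hb := b_pos
    calc volume (Bad (N + 1) s t) ≤ volume (⋃ a ∈ Finset.range (adm s),
          {r : ℝ | b * r - (a : ℕ) ∈ Bad N (dl s a) (t - w s a)}) := measure_mono hsub
      _ ≤ ∑ a ∈ Finset.range (adm s),
          volume {r : ℝ | b * r - (a : ℕ) ∈ Bad N (dl s a) (t - w s a)} :=
          measure_biUnion_finset_le _ _
      _ ≤ ∑ a ∈ Finset.range (adm s), ENNReal.ofReal (b⁻¹ *
          ((4649 / 1000 / b) ^ N * phi (dl s a) * (50 / 47 : ℝ) ^ (t - w s a))) := by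
          apply Finset.sum_le_sum
          intro a _
          rw [vol_pre, ENNReal.ofReal_mul (inv_pos.mpr hb).le]
          exact mul_le_mul_right (ih _ _) _
      _ = ENNReal.ofReal (∑ a ∈ Finset.range (adm s), b⁻¹ *
          ((4649 / 1000 / b) ^ N * phi (dl s a) * (50 / 47 : ℝ) ^ (t - w s a))) := by
          rw [ENNReal.ofReal_sum_of_nonneg]
          intro a _
          have := phi_ge (dl s a)
          positivity
      _ ≤ _ := by
          apply ENNReal.ofReal_le_ofReal
          have h1 : ∑ a ∈ Finset.range (adm s), b⁻¹ *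
              ((4649 / 1000 / b) ^ N * phi (dl s a) * (50 / 47 : ℝ) ^ (t - w s a)) =
              b⁻¹ * (4649 / 1000 / b) ^ N * (50 / 47 : ℝ) ^ t *
              ∑ a ∈ Finset.range (adm s), phi (dl s a) * (50 / 47 : ℝ) ^ (-(w s a)) := by
            rw [Finset.mul_sum]
            apply Finset.sum_congr rfl
            intro a _
            rw [sub_eq_add_neg, zpow_add₀ (by norm_num)]
            ring
          rw [h1]
          have h2 : 0 ≤ b⁻¹ * (4649 / 1000 / b) ^ N * (50 / 47 : ℝ) ^ t := by positivity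
          calc _ ≤ b⁻¹ * (4649 / 1000 / b) ^ N * (50 / 47 : ℝ) ^ t *
                (4649 / 1000 * phi s) := mul_le_mul_of_nonneg_left (eigen s) h2
            _ = _ := by rw [pow_succ]; ring

lemma theta_lt : (4649 / 1000 / b) ^ 28 * (50 / 47 : ℝ) ^ 17 < 1 := by
  have h1 : 4649 / 1000 / b ≤ 4649 / 1000 / 4.8284 :=
    div_le_div_of_nonneg_left (by norm_num) (by norm_num) b_lo.le
  have h0 : 0 ≤ 4649 / 1000 / b := by have := b_pos; positivity
  calc (4649 / 1000 / b) ^ 28 * (50 / 47 : ℝ) ^ 17 ≤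
      (4649 / 1000 / 4.8284) ^ 28 * (50 / 47 : ℝ) ^ 17 :=
        mul_le_mul_of_nonneg_right (pow_le_pow_left₀ h0 h1 28) (by norm_num)
    _ < 1 := by norm_num

lemma null_ev : volume {r : ℝ | (0 ≤ r ∧ r < 1) ∧
    ∃ M0 : ℕ, ∀ M : ℕ, M0 ≤ M → Fs (28 * M) .Z r ≤ 17 * M} = 0 := by
  have hsub : {r : ℝ | (0 ≤ r ∧ r < 1) ∧
      ∃ M0 : ℕ, ∀ M : ℕ, M0 ≤ M → Fs (28 * M) .Z r ≤ 17 * M} ⊆
      ⋃ M0 : ℕ, {r : ℝ | (0 ≤ r ∧ r < 1) ∧ ∀ M : ℕ, M0 ≤ M → Fs (28 * M) .Z r ≤ 17 * M} := by
    rintro r ⟨h1, M0, h2⟩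
    exact mem_iUnion.mpr ⟨M0, h1, h2⟩
  refine measure_mono_null hsub (measure_iUnion_null fun M0 => ?_)
  set θ : ℝ := (4649 / 1000 / b) ^ 28 * (50 / 47 : ℝ) ^ 17 with hθ
  have hθ0 : 0 ≤ θ := by have := b_pos; positivity
  have hlim : Tendsto (fun M : ℕ => ENNReal.ofReal (1215 / 1000 * θ ^ M)) atTop (𝓝 0) := by
    have h1 : Tendsto (fun M : ℕ => 1215 / 1000 * θ ^ M) atTop (𝓝 (1215 / 1000 * 0)) :=
      (tendsto_pow_atTop_nhds_zero_of_lt_one hθ0 theta_lt).const_mul _
    rw [mul_zero] at h1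
    have := ENNReal.tendsto_ofReal h1
    simpa using this
  have hle : ∀ᶠ M : ℕ in atTop, volume {r : ℝ | (0 ≤ r ∧ r < 1) ∧
      ∀ M : ℕ, M0 ≤ M → Fs (28 * M) .Z r ≤ 17 * M} ≤
      ENNReal.ofReal (1215 / 1000 * θ ^ M) := by
    filter_upwards [eventually_ge_atTop M0] with M hM
    calc _ ≤ volume (Bad (28 * M) .Z (17 * M)) := by
          apply measure_mono
          rintro r ⟨⟨h1, h2⟩, h3⟩
          exact ⟨h1, by simpa [ell] using h2, h3 M hM⟩
      _ ≤ _ := bad_bound _ _ _
      _ = _ := by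
          congr 1
          have e1 : (50 / 47 : ℝ) ^ ((17 : ℤ) * (M : ℤ)) = ((50 / 47 : ℝ) ^ 17) ^ M := by
            rw [zpow_mul]; norm_cast
          rw [e1, hθ, mul_pow, pow_mul]
          simp only [phi]; ring
  exact le_antisymm (ge_of_tendsto hlim hle) bot_le

/-! ### Comparing an arbitrary expansion with the greedy one -/

/-- value of a digit sequence -/
noncomputable def val (e : ℕ → ℕ) : ℝ := ∑' i, (e i : ℝ) / b ^ (i + 1)

lemma summ4 : HasSum (fun i : ℕ => (4 : ℝ) / b ^ (i + 1)) (4 / (b - 1)) := by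
  have hb := b_lo
  have h1 : HasSum (fun i : ℕ => (b⁻¹) ^ i) (1 - b⁻¹)⁻¹ :=
    hasSum_geometric_of_lt_one (by have := b_pos; positivity) (inv_lt_one_of_one_lt₀ (by linarith))
  have h2 := h1.mul_left (4 / b)
  have hb0 : b ≠ 0 := b_pos.ne'
  have hb1 : b - 1 ≠ 0 := by intro h; linarith
  have h3 : 4 / b * (1 - b⁻¹)⁻¹ = 4 / (b - 1) := by
    have : 1 - b⁻¹ = (b - 1) / b := by field_simp
    rw [this, inv_div]; field_simp
  rw [h3] at h2
  have h4 : (fun i : ℕ => (4 : ℝ) / b ^ (i + 1)) = fun i : ℕ => 4 / b * (b⁻¹) ^ i := by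
    funext i
    rw [pow_succ, inv_pow]; field_simp
  rw [h4]; exact h2

lemma summ {e : ℕ → ℕ} (he : ∀ i, e i ≤ 4) : Summable (fun i : ℕ => (e i : ℝ) / b ^ (i + 1)) := by
  have hb := b_pos
  refine Summable.of_nonneg_of_le (fun i => by positivity) (fun i => ?_) summ4.summable
  have : (e i : ℝ) ≤ 4 := by exact_mod_cast he i
  exact div_le_div_of_nonneg_right this (by positivity)

lemma val_nonneg (e : ℕ → ℕ) : 0 ≤ val e := by
  have hb := b_pos
  exact tsum_nonneg fun i => by positivity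

lemma val_lt {e : ℕ → ℕ} (he : ∀ i, e i ≤ 4) : val e < 1.045 := by
  have hb := b_lo
  have h1 : val e ≤ 4 / (b - 1) := by
    rw [← summ4.tsum_eq]
    refine (summ he).tsum_le_tsum (fun i => ?_) summ4.summable
    have : (e i : ℝ) ≤ 4 := by exact_mod_cast he i
    have := b_pos
    exact div_le_div_of_nonneg_right (by assumption) (by positivity)
  have h2 : 4 / (b - 1) < 1.045 := by
    rw [div_lt_iff₀ (by linarith)]; linarith
  linarith

lemma val_succ {e : ℕ → ℕ} (he : ∀ i, e i ≤ 4) :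
    val (fun i => e (i + 1)) = b * val e - e 0 := by
  have hb := b_pos
  unfold val
  rw [(summ he).tsum_eq_zero_add, mul_add, ← tsum_mul_left]
  have h1 : ∀ i : ℕ, b * ((e (i + 1) : ℝ) / b ^ (i + 1 + 1)) = (e (i + 1) : ℝ) / b ^ (i + 1) := by
    intro i; rw [pow_succ b (i + 1)]; field_simp
  simp only [h1]
  field_simp
  ring

/-- possible differences -/
inductive Df | z | o | d
  deriving DecidableEq

/-- value of a difference -/
noncomputable def dv : Df → ℝ
  | .z => 0
  | .o => 1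
  | .d => b - 4

/-- credit -/
def G (s : St) (D : Df) : ℤ := if (s = .A ∧ D = .o) ∨ (s = .B ∧ D = .d) then 0 else 1

/-- number of interior digits -/
def cnt (N : ℕ) (e : ℕ → ℕ) : ℤ := ∑ i ∈ Finset.range N, it (e i)

lemma cnt_succ (N : ℕ) (e : ℕ → ℕ) : cnt (N + 1) e = it (e 0) + cnt N (fun i => e (i + 1)) := by
  unfold cnt; rw [Finset.sum_range_succ']; ring

lemma comb_z (s : St) (k : ℕ) (hk : k ≤ 4) : w s k - it k + G (dl s k) .z ≤ G s .z := by
  interval_cases k <;> cases s <;> decide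

lemma comb_z1 (s : St) (k : ℕ) (hk : k ≤ 3) :
    w s (k + 1) - it k + G (dl s (k + 1)) .o ≤ G s .z := by
  interval_cases k <;> cases s <;> decide

lemma comb_o (s : St) : w s 0 - it 4 + G (dl s 0) .d ≤ G s .o := by
  cases s <;> decide

lemma comb_d1 (s : St) : w s 0 - it 4 + G (dl s 0) .z ≤ G s .d := by
  cases s <;> decide

lemma comb_d2 (s : St) : w s 0 - it 3 + G (dl s 0) .o ≤ G s .d := by
  cases s <;> decide

lemma comb_d3 (s : St) : w s 1 - it 4 + G (dl s 1) .o ≤ G s .d := by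
  cases s <;> decide

lemma main_ineq (N : ℕ) : ∀ (s : St) (D : Df) (r : ℝ) (e : ℕ → ℕ), 0 ≤ r → r < ell s →
    (∀ i, e i ≤ 4) → val e = r + dv D → Fs N s r - cnt N e ≤ G s D := by
  induction N with
  | zero =>
    intro s D r e _ _ _ _
    simp only [Fs, cnt, Finset.range_zero, Finset.sum_empty, sub_self]
    unfold G; split_ifs <;> norm_num
  | succ N ih =>
    intro s D r e h0 h1 he hv
    obtain ⟨g1, g2, g3, g5, g4⟩ := range_step h0 h1
    have he' : ∀ i, (fun i => e (i + 1)) i ≤ 4 := fun i => he (i + 1)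
    have hv' := val_succ he
    have hvn := val_nonneg (fun i => e (i + 1))
    have hvl := val_lt he'
    have hcs := cnt_succ N e
    have hF : Fs (N + 1) s r = w s (dg r) + Fs N (dl s (dg r)) (tr r) := rfl
    have htr : tr r = b * r - dg r := rfl
    have hb1 := b_lo
    have hb2 := b_hi
    have hb3 := b_sq
    have he0 := he 0
    -- the next difference
    have hdiff : val (fun i => e (i + 1)) = tr r + ((dg r : ℝ) - e 0 + b * dv D) := by
      rw [hv', hv, htr]; ring
    have hlo : -1 < (dg r : ℝ) - e 0 + b * dv D := by linarith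
    have hhi : (dg r : ℝ) - e 0 + b * dv D < 1.045 := by linarith
    -- conclude from a combinatorial inequality
    have concl : ∀ D' : Df, dv D' = (dg r : ℝ) - e 0 + b * dv D →
        w s (dg r) - it (e 0) + G (dl s (dg r)) D' ≤ G s D →
        Fs (N + 1) s r - cnt (N + 1) e ≤ G s D := by
      intro D' hD' hc
      have := ih (dl s (dg r)) D' (tr r) (fun i => e (i + 1)) g3 g4 he' (by rw [hdiff, hD'])
      rw [hF, hcs]; linarith
    cases D with
    | z =>
      simp only [dv, mul_zero, add_zero] at hlo hhi concl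
      have c1 : e 0 ≤ dg r := by
        by_contra hcon
        push Not at hcon
        have : (dg r : ℝ) + 1 ≤ e 0 := by exact_mod_cast hcon
        linarith
      have c2 : dg r ≤ e 0 + 1 := by
        by_contra hcon
        push Not at hcon
        have : (e 0 : ℝ) + 2 ≤ dg r := by exact_mod_cast hcon
        linarith
      have c3 : dg r = e 0 ∨ dg r = e 0 + 1 := by omega
      rcases c3 with c | c
      · refine concl .z (by simp [dv, c]) ?_
        rw [c]; exact comb_z s (e 0) he0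
      · refine concl .o (by simp [dv, c]) ?_
        rw [c]; exact comb_z1 s (e 0) (by omega)
    | o =>
      simp only [dv, mul_one] at hlo hhi concl
      have c1 : dg r = 0 := by
        by_contra hcon
        have h2 : 1 ≤ dg r := by omega
        have h3 : (1 : ℝ) ≤ dg r := by exact_mod_cast h2
        have h4 : (e 0 : ℝ) ≤ 4 := by exact_mod_cast he0
        linarith
      have c2 : e 0 = 4 := by
        by_contra hcon
        have h2 : e 0 ≤ 3 := by omega
        have h4 : (e 0 : ℝ) ≤ 3 := by exact_mod_cast h2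
        have h5 : (dg r : ℝ) = 0 := by rw [c1]; norm_num
        linarith
      refine concl .d (by simp only [dv, c1, c2]; push_cast; ring) ?_
      rw [c1, c2]; exact comb_o s
    | d =>
      have hbb : b * (b - 4) = 4 := by linarith
      simp only [dv] at hlo hhi concl
      rw [hbb] at hlo hhi concl
      have c1 : dg r + 3 ≤ e 0 := by
        by_contra hcon
        push Not at hcon
        have h2 : e 0 + 1 ≤ dg r + 3 := hcon
        have h3 : (e 0 : ℝ) + 1 ≤ dg r + 3 := by exact_mod_cast h2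
        linarith
      have c3 : (dg r = 0 ∧ e 0 = 4) ∨ (dg r = 0 ∧ e 0 = 3) ∨ (dg r = 1 ∧ e 0 = 4) := by omega
      rcases c3 with ⟨c, c'⟩ | ⟨c, c'⟩ | ⟨c, c'⟩
      · refine concl .z (by simp only [dv, c, c']; norm_num) ?_
        rw [c, c']; exact comb_d1 s
      · refine concl .o (by simp only [dv, c, c']; norm_num) ?_
        rw [c, c']; exact comb_d2 s
      · refine concl .o (by simp only [dv, c, c']; norm_num) ?_
        rw [c, c']; exact comb_d3 s

lemma Fs_le (N : ℕ) {x : ℝ} (h0 : 0 ≤ x) (h1 : x < 1) {e : ℕ → ℕ} (he : IsExpansion b x e) :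
    Fs N .Z x ≤ cnt N e + 1 := by
  obtain ⟨h2, h3⟩ := he
  rw [ceil_b] at h2
  have h4 : val e = x + dv .z := by
    simp only [dv, add_zero]; exact h3.tsum_eq
  have := main_ineq N .Z .z x e h0 (by simpa [ell] using h1) (fun i => by have := h2 i; omega) h4
  have hG : G .Z .z = 1 := by decide
  rw [hG] at this
  linarith

lemma cnt_eq (n : ℕ) (e : ℕ → ℕ) : ((cnt n e : ℤ) : ℝ) =
    (((Finset.range n).filter (fun i => e i = 1)).card : ℝ) +
    (((Finset.range n).filter (fun i => e i = 2)).card : ℝ) +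
    (((Finset.range n).filter (fun i => e i = 3)).card : ℝ) := by
  simp only [Finset.card_filter]
  push_cast [cnt]
  rw [← Finset.sum_add_distrib, ← Finset.sum_add_distrib]
  apply Finset.sum_congr rfl
  intro i _
  unfold it
  split_ifs <;> first | omega | norm_num

/-- For almost every `x ∈ [0,1)`, no expansion has digit frequencies `p` if
`p 1 + p 2 + p 3 < 17/28`. -/
lemma null_freq (p : ℕ → ℝ) (hp : p 1 + p 2 + p 3 < 17 / 28) :
    volume {x : ℝ | (0 ≤ x ∧ x < 1) ∧ ∃ e : ℕ → ℕ, IsExpansion b x e ∧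
      ∀ j ∈ Finset.Icc 1 3, HasFreq e j (p j)} = 0 := by
  refine measure_mono_null ?_ null_ev
  rintro x ⟨⟨h0, h1⟩, e, he, hf⟩
  refine ⟨⟨h0, h1⟩, ?_⟩
  have f1 := hf 1 (by decide)
  have f2 := hf 2 (by decide)
  have f3 := hf 3 (by decide)
  unfold HasFreq at f1 f2 f3
  have f4 : Tendsto (fun n : ℕ => (1 : ℝ) / n) atTop (𝓝 0) := tendsto_one_div_atTop_nhds_zero_nat
  have f5 := ((f1.add f2).add f3).add f4
  rw [add_zero] at f5
  have f6 : ∀ᶠ n : ℕ in atTop, ((cnt n e : ℤ) : ℝ) / n + 1 / n < 17 / 28 := by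
    filter_upwards [f5.eventually (gt_mem_nhds hp)] with n hn
    rw [cnt_eq, add_div, add_div]
    exact hn
  obtain ⟨n0, hn0⟩ := eventually_atTop.mp f6
  refine ⟨n0 + 1, fun M hM => ?_⟩
  have g1 := hn0 (28 * M) (by omega)
  have hM0 : (0 : ℝ) < M := by
    have : 0 < M := by omega
    exact_mod_cast this
  have g2 : ((cnt (28 * M) e : ℤ) : ℝ) + 1 < 17 * M := by
    rw [← add_div, div_lt_iff₀ (by push_cast; positivity)] at g1
    push_cast at g1
    linarith
  have g3 : cnt (28 * M) e + 1 < 17 * M := by exact_mod_cast g2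
  have g4 := Fs_le (28 * M) h0 h1 he
  linarith

lemma not_almost : ¬ IsAlmostVariational b := by
  rintro ⟨c, hc, h⟩
  have hcast : (⌈b⌉₊ : ℝ) = 5 := by rw [ceil_b]; norm_num
  have h1 := h (fun _ => 1 / (⌈b⌉₊ : ℝ)) (fun j => ⟨by linarith, by linarith⟩) (by
    rw [Finset.sum_const, Finset.card_univ, Fintype.card_fin, nsmul_eq_mul, hcast]; norm_num)
  unfold I at h1
  rw [ae_restrict_iff' measurableSet_Icc] at h1
  have h2 := null_freq (fun _ => 1 / 5) (by norm_num)
  rw [measure_eq_zero_iff_ae_notMem] at h2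
  have h3 : ∀ᵐ x : ℝ, x ∉ Ico (0 : ℝ) 1 := by
    filter_upwards [h1, h2] with x hx1 hx2 hx
    obtain ⟨e, he, hf⟩ := hx1 (by
      refine ⟨hx.1, ?_⟩
      rw [hcast, le_div_iff₀ (by linarith [b_lo])]
      nlinarith [hx.1, hx.2, b_hi, b_lo])
    apply hx2
    refine ⟨hx, e, he, ?_⟩
    intro j hj
    have hj5 : j < ⌈b⌉₊ := by
      rw [ceil_b]; have := Finset.mem_Icc.mp hj; omega
    have := hf ⟨j, hj5⟩
    rw [hcast] at this
    exact this
  have h4 := measure_eq_zero_iff_ae_notMem.mpr h3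
  rw [Real.volume_Ico] at h4
  norm_num at h4

lemma b_not_int : ∀ k : ℤ, b ≠ k := by
  intro k hk
  have h1 := b_lo
  have h2 := b_hi
  rw [hk] at h1 h2
  have h3 : (4 : ℝ) < k := by linarith
  have h4 : (k : ℝ) < 5 := by linarith
  have h5 : (4 : ℤ) < k := by exact_mod_cast h3
  have h6 : k < (5 : ℤ) := by exact_mod_cast h4
  omega

/-- **Main theorem** (Q1 is false).
* `2 + 2√2` is a non-integer base `> 1` that is not an almost variational frequency base;
* hence not every non-integer `β > 1` is one;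
* quantitatively, for Lebesgue almost every `x ∈ [0,1)` no expansion of `x` in base `2 + 2√2` has
  digit frequencies `p₁, p₂, p₃` of the digits `1,2,3` with `p₁ + p₂ + p₃ < 17/28` (in
  particular `p₁ = p₂ = p₃ = 1/5` is impossible). -/
theorem result :
    (1 < 2 + 2 * √2 ∧ (∀ k : ℤ, (2 + 2 * √2 : ℝ) ≠ k) ∧ ¬ IsAlmostVariational (2 + 2 * √2)) ∧
    ¬ (∀ β : ℝ, 1 < β → (∀ k : ℤ, β ≠ k) → IsAlmostVariational β) ∧
    ∀ p : ℕ → ℝ, p 1 + p 2 + p 3 < 17 / 28 →
      volume {x : ℝ | (0 ≤ x ∧ x < 1) ∧ ∃ e : ℕ → ℕ, IsExpansion (2 + 2 * √2) x e ∧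
        ∀ j ∈ Finset.Icc 1 3, HasFreq e j (p j)} = 0 := by
  have hb1 : 1 < 2 + 2 * √2 := by
    have := b_lo; unfold b at this; linarith
  refine ⟨⟨hb1, b_not_int, not_almost⟩, fun h => not_almost (h _ hb1 b_not_int), ?_⟩
  intro p hp
  exact null_freq p hp

end Pool.Agent.Results.MP_842b9f_an.NotAlmostVariational
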